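import Mathlib

/-!
# A `c`-complete topological semilattice which is not `s`-complete

The elements are `⊥` and the pairs `(k, g)` of a natural number `k` and a non-increasing function
`g : ℕ → ℕ ∪ {∞}` with `g k < ∞`. The meet is `(max k k', max g g')`. Neighbourhoods of `(k, g)` are
given by pointwise convergence of the functions, with the condition `max (k', κ) = k`, where `κ` is
the number of the places where `g` is infinite. Neighbourhoods of `⊥` are the sets of the `(k, g)`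
such that `g r ≤ r`, `f r ≤ k`, `r < k` for some `r`, where `f : ℕ → ℕ` is any function.

The chain `(0, j)`, `j` a constant function, has the infimum `⊥`, and `⊥` is not in the closure of the
upper set generated by the chain, since all elements of this set have `k = 0`.
-/

set_option autoImplicit false

namespace Pool.Agent.Results.MP_5a7388_gt.ChainCompleteNotComplete

open Set Filter Topology

/-- `X` is `s`-complete. -/
def SComplete (X : Type) [SemilatticeInf X] [TopologicalSpace X] : Prop :=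
  (∀ S : Set X, S.Nonempty → (∀ x ∈ S, ∀ y ∈ S, x ⊓ y ∈ S) →
    ∃ a, IsGLB S a ∧ a ∈ closure {x | ∃ s ∈ S, s ≤ x}) ∧
  ∀ C : Set X, C.Nonempty → IsChain (· ≤ ·) C →
    ∃ a, IsLUB C a ∧ a ∈ closure {x | ∃ c ∈ C, x ≤ c}

/-- `X` is `c`-complete. -/
def CComplete (X : Type) [SemilatticeInf X] [TopologicalSpace X] : Prop :=
  ∀ F : Set X, IsClosed F → IsUpperSet F → ∀ C : Set X, C.Nonempty → C ⊆ F →
    IsChain (· ≤ ·) C →
      (∃ a, IsGLB C a ∧ a ∈ F) ∧ ∃ a, IsLUB C a ∧ a ∈ closure {x | ∃ c ∈ C, x ≤ c}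

/-- The non-zero elements. -/
@[ext] structure P : Type where
  /-- the number -/
  k : ℕ
  /-- the function -/
  g : ℕ → ℕ∞
  /-- the function is non-increasing -/
  anti : Antitone g
  /-- the value at `k` is finite -/
  fin : g k ≠ ⊤

instance : LE P := ⟨fun p q => q.k ≤ p.k ∧ q.g ≤ p.g⟩

theorem le_def (p q : P) : p ≤ q ↔ q.k ≤ p.k ∧ q.g ≤ p.g := Iff.rfl

instance : PartialOrder P where
  le_refl p := ⟨le_rfl, le_rfl⟩
  le_trans p q r h1 h2 := ⟨h2.1.trans h1.1, h2.2.trans h1.2⟩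
  le_antisymm p q h1 h2 := P.ext (le_antisymm h2.1 h1.1) (le_antisymm h2.2 h1.2)

/-- The meet. -/
noncomputable def meet (p q : P) : P where
  k := max p.k q.k
  g := p.g ⊔ q.g
  anti := p.anti.sup q.anti
  fin := by
    have h1 : p.g (max p.k q.k) < ⊤ :=
      (p.anti (le_max_left _ _)).trans_lt (lt_top_iff_ne_top.2 p.fin)
    have h2 : q.g (max p.k q.k) < ⊤ :=
      (q.anti (le_max_right _ _)).trans_lt (lt_top_iff_ne_top.2 q.fin)
    exact (max_lt h1 h2).ne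

noncomputable instance : SemilatticeInf P where
  inf := meet
  inf_le_left _ _ := ⟨le_max_left _ _, le_sup_left⟩
  inf_le_right _ _ := ⟨le_max_right _ _, le_sup_right⟩
  le_inf _ _ _ h1 h2 := ⟨max_le h1.1 h2.1, sup_le h1.2 h2.2⟩

theorem inf_k (p q : P) : (p ⊓ q).k = max p.k q.k := rfl
theorem inf_g (p q : P) (i : ℕ) : (p ⊓ q).g i = max (p.g i) (q.g i) := rfl

/-- The semilattice. -/
def X : Type := WithBot P

noncomputable instance : SemilatticeInf X := inferInstanceAs (SemilatticeInf (WithBot P))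
instance : OrderBot X := inferInstanceAs (OrderBot (WithBot P))

/-- The non-zero element given by a pair. -/
def nz (p : P) : X := (p : WithBot P)

theorem cases_X (x : X) : x = ⊥ ∨ ∃ p, x = nz p := by
  induction x using WithBot.recBotCoe with
  | bot => exact Or.inl rfl
  | coe p => exact Or.inr ⟨p, rfl⟩

theorem nz_le {p q : P} : nz p ≤ nz q ↔ p ≤ q := WithBot.coe_le_coe

theorem nz_inj {p q : P} : nz p = nz q ↔ p = q := WithBot.coe_inj

theorem nz_ne_bot (p : P) : nz p ≠ ⊥ := WithBot.coe_ne_bot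

theorem nz_inf (p q : P) : nz p ⊓ nz q = nz (p ⊓ q) := rfl

/-- The neighbourhoods of the non-zero elements. -/
def V (N : ℕ) (p : P) : Set P :=
  {q | (∀ i ≤ N, (p.g i ≠ ⊤ → q.g i = p.g i) ∧ (p.g i = ⊤ → (N : ℕ∞) ≤ q.g i)) ∧ q.k ≤ p.k ∧
    (q.k ≠ p.k → ∀ i < p.k, p.g i = ⊤)}

/-- The neighbourhoods of zero. -/
def U (f : ℕ → ℕ) : Set P := {p | ∃ r, p.g r ≤ (r : ℕ∞) ∧ f r ≤ p.k ∧ r < p.k}

theorem V_mono {N M : ℕ} (h : N ≤ M) (p : P) : V M p ⊆ V N p := by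
  rintro q ⟨h1, h2, h3⟩
  refine ⟨fun i hi => ⟨(h1 i (hi.trans h)).1, fun hp => ?_⟩, h2, h3⟩
  exact le_trans (by exact_mod_cast h) ((h1 i (hi.trans h)).2 hp)

theorem self_mem_V (N : ℕ) (p : P) : p ∈ V N p :=
  ⟨fun i _ => ⟨fun _ => rfl, fun h => by rw [h]; exact le_top⟩, le_rfl, fun h => absurd rfl h⟩

theorem V_trans {N : ℕ} {p q r : P} (hN : p.k ≤ N) (hq : q ∈ V N p) (hr : r ∈ V N q) :
    r ∈ V N p := by
  obtain ⟨h1, h2, h3⟩ := hq
  obtain ⟨h4, h5, h6⟩ := hr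
  refine ⟨fun i hi => ⟨fun hp => ?_, fun hp => ?_⟩, h5.trans h2, fun hne i hi => ?_⟩
  · have h7 := (h1 i hi).1 hp
    rw [← h7]
    exact (h4 i hi).1 (by rw [h7]; exact hp)
  · by_cases h7 : q.g i = ⊤
    · exact (h4 i hi).2 h7
    · rw [(h4 i hi).1 h7]
      exact (h1 i hi).2 hp
  · by_cases h7 : q.k = p.k
    · by_contra h8
      have h9 := (h1 i (hi.le.trans hN)).1 h8
      have h10 := h6 (by rw [h7]; exact hne) i (by rw [h7]; exact hi)
      rw [h10] at h9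
      exact h8 h9.symm
    · exact h3 h7 i hi

theorem U_open {f : ℕ → ℕ} {p : P} (hp : p ∈ U f) : V p.k p ⊆ U f := by
  obtain ⟨r, h1, h2, h3⟩ := hp
  rintro q ⟨h4, h5, h6⟩
  have h7 : p.g r ≠ ⊤ := (h1.trans_lt (ENat.natCast_lt_top r)).ne
  have hk : q.k = p.k := by
    by_contra hne
    exact h7 (h6 hne r h3)
  refine ⟨r, ?_, by rw [hk]; exact h2, by rw [hk]; exact h3⟩
  rw [(h4 r h3.le).1 h7]
  exact h1

instance : TopologicalSpace X where
  IsOpen W := (∀ p, nz p ∈ W → ∃ N, ∀ q ∈ V N p, nz q ∈ W) ∧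
    (⊥ ∈ W → ∃ f, ∀ q ∈ U f, nz q ∈ W)
  isOpen_univ := ⟨fun _ _ => ⟨0, fun _ _ => mem_univ _⟩, fun _ => ⟨0, fun _ _ => mem_univ _⟩⟩
  isOpen_inter := by
    rintro W W' ⟨h1, h2⟩ ⟨h3, h4⟩
    refine ⟨fun p hp => ?_, fun hb => ?_⟩
    · obtain ⟨N, hN⟩ := h1 p hp.1
      obtain ⟨M, hM⟩ := h3 p hp.2
      exact ⟨max N M, fun q hq => ⟨hN q (V_mono (le_max_left _ _) p hq),
        hM q (V_mono (le_max_right _ _) p hq)⟩⟩
    · obtain ⟨f, hf⟩ := h2 hb.1
      obtain ⟨f', hf'⟩ := h4 hb.2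
      refine ⟨fun r => max (f r) (f' r), fun q hq => ?_⟩
      obtain ⟨r, h5, h6, h7⟩ := hq
      exact ⟨hf q ⟨r, h5, (le_max_left _ _).trans h6, h7⟩,
        hf' q ⟨r, h5, (le_max_right _ _).trans h6, h7⟩⟩
  isOpen_sUnion := by
    rintro 𝒲 h
    refine ⟨fun p hp => ?_, fun hb => ?_⟩
    · obtain ⟨W, hW, hpW⟩ := hp
      obtain ⟨N, hN⟩ := (h W hW).1 p hpW
      exact ⟨N, fun q hq => ⟨W, hW, hN q hq⟩⟩
    · obtain ⟨W, hW, hbW⟩ := hb
      obtain ⟨f, hf⟩ := (h W hW).2 hbW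
      exact ⟨f, fun q hq => ⟨W, hW, hf q hq⟩⟩

/-- The open neighbourhoods of the non-zero elements. -/
theorem isOpen_V {N : ℕ} {p : P} (hN : p.k ≤ N) : IsOpen (nz '' V N p) := by
  refine ⟨?_, ?_⟩
  · rintro q ⟨q', hq', h⟩
    rw [nz_inj] at h
    subst h
    exact ⟨N, fun r hr => ⟨r, V_trans hN hq' hr, rfl⟩⟩
  · rintro ⟨q, _, h⟩
    exact absurd h (nz_ne_bot q)

/-- The open neighbourhoods of zero. -/
theorem isOpen_U (f : ℕ → ℕ) : IsOpen (insert ⊥ (nz '' U f)) := by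
  refine ⟨?_, fun _ => ⟨f, fun q hq => Or.inr ⟨q, hq, rfl⟩⟩⟩
  rintro p (h | ⟨p', hp', h⟩)
  · exact absurd h (nz_ne_bot p)
  · rw [nz_inj] at h
    subst h
    exact ⟨p'.k, fun q hq => Or.inr ⟨q, U_open hp' hq, rfl⟩⟩

theorem nhds_nz (p : P) (N : ℕ) : ∀ᶠ x in 𝓝 (nz p), ∃ q ∈ V N p, x = nz q := by
  filter_upwards [(isOpen_V (le_max_right N p.k)).mem_nhds ⟨p, self_mem_V _ p, rfl⟩] with x hx
  obtain ⟨q, hq, rfl⟩ := hx
  exact ⟨q, V_mono (le_max_left _ _) p hq, rfl⟩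

theorem nhds_bot (f : ℕ → ℕ) : ∀ᶠ x in 𝓝 (⊥ : X), x = ⊥ ∨ ∃ q ∈ U f, x = nz q := by
  filter_upwards [(isOpen_U f).mem_nhds (Or.inl rfl)] with x hx
  rcases hx with hx | ⟨q, hq, rfl⟩
  · exact Or.inl hx
  · exact Or.inr ⟨q, hq, rfl⟩

theorem not_disjoint_V_of_g {p q : P} {i : ℕ} (h : p.g i < q.g i) :
    ∃ N, ∀ r, r ∈ V N p → r ∈ V N q → False := by
  have hp : p.g i ≠ ⊤ := (h.trans_le le_top).ne
  obtain ⟨m, hm⟩ := ENat.ne_top_iff_exists.1 hp
  refine ⟨max i (m + 1), fun r hr hr' => ?_⟩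
  have h1 := (hr.1 i (le_max_left _ _)).1 hp
  by_cases hq : q.g i = ⊤
  · have h2 := (hr'.1 i (le_max_left _ _)).2 hq
    rw [h1, ← hm] at h2
    have h3 : max i (m + 1) ≤ m := by exact_mod_cast h2
    omega
  · have h2 := (hr'.1 i (le_max_left _ _)).1 hq
    rw [h1] at h2
    exact h.ne h2

theorem V_k {p q r : P} {N : ℕ} (hg : p.g = q.g) (hk : p.k < q.k) (h : r ∈ V N p)
    (h' : r ∈ V N q) : False := by
  have h1 := h'.2.2 (by have := h.2.1; omega) p.k hk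
  rw [← hg] at h1
  exact p.fin h1

theorem disjoint_V {p q : P} (h : p ≠ q) : ∃ N, ∀ r, r ∈ V N p → r ∈ V N q → False := by
  by_cases hg : p.g = q.g
  · have hk : p.k ≠ q.k := fun hk => h (P.ext hk hg)
    rcases lt_or_gt_of_ne hk with h1 | h1
    · exact ⟨0, fun r hr hr' => V_k hg h1 hr hr'⟩
    · exact ⟨0, fun r hr hr' => V_k hg.symm h1 hr' hr⟩
  · obtain ⟨i, hi⟩ : ∃ i, p.g i ≠ q.g i := by
      by_contra hcon
      push Not at hcon
      exact hg (funext hcon)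
    rcases lt_or_gt_of_ne hi with h1 | h1
    · exact not_disjoint_V_of_g h1
    · obtain ⟨N, hN⟩ := not_disjoint_V_of_g h1
      exact ⟨N, fun r hr hr' => hN r hr' hr⟩

theorem sep_bot (p : P) : ∃ W W' : Set X, IsOpen W ∧ IsOpen W' ∧ ⊥ ∈ W ∧ nz p ∈ W' ∧
    Disjoint W W' := by
  refine ⟨insert ⊥ (nz '' U fun _ => p.k + 1), nz '' V p.k p, isOpen_U _, isOpen_V le_rfl,
    Or.inl rfl, ⟨p, self_mem_V _ p, rfl⟩, ?_⟩
  rw [Set.disjoint_left]
  rintro x (rfl | ⟨q, ⟨r, _, h2, _⟩, rfl⟩) ⟨q', hq', h⟩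
  · exact nz_ne_bot _ h
  · rw [nz_inj] at h
    subst h
    have h3 := hq'.2.1
    have h4 : p.k + 1 ≤ q'.k := h2
    omega

instance : T2Space X where
  t2 := by
    intro x y hxy
    rcases cases_X x with rfl | ⟨p, rfl⟩ <;> rcases cases_X y with rfl | ⟨q, rfl⟩
    · exact absurd rfl hxy
    · exact sep_bot q
    · obtain ⟨W, W', h1, h2, h3, h4, h5⟩ := sep_bot p
      exact ⟨W', W, h2, h1, h4, h3, h5.symm⟩
    · have hpq : p ≠ q := fun h => hxy (by rw [h])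
      obtain ⟨N, hN⟩ := disjoint_V hpq
      refine ⟨nz '' V (max N p.k) p, nz '' V (max N q.k) q, isOpen_V (le_max_right _ _),
        isOpen_V (le_max_right _ _), ⟨p, self_mem_V _ p, rfl⟩, ⟨q, self_mem_V _ q, rfl⟩, ?_⟩
      rw [Set.disjoint_left]
      rintro _ ⟨r, hr, rfl⟩ ⟨r', hr', h⟩
      rw [nz_inj] at h
      subst h
      exact hN r' (V_mono (le_max_left _ _) p hr) (V_mono (le_max_left _ _) q hr')

theorem inf_V {N : ℕ} {p q p' q' : P} (hp : p' ∈ V N p) (hq : q' ∈ V N q) :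
    p' ⊓ q' ∈ V N (p ⊓ q) := by
  obtain ⟨h1, h2, h3⟩ := hp
  obtain ⟨h4, h5, h6⟩ := hq
  refine ⟨fun i hi => ⟨fun hne => ?_, fun htop => ?_⟩, max_le_max h2 h5, fun hne i hi => ?_⟩
  · rw [inf_g] at hne
    have hp : p.g i ≠ ⊤ := fun h => hne (by rw [h]; exact max_eq_left le_top)
    have hq : q.g i ≠ ⊤ := fun h => hne (by rw [h]; exact max_eq_right le_top)
    rw [inf_g, inf_g, (h1 i hi).1 hp, (h4 i hi).1 hq]
  · rw [inf_g] at htop
    rw [inf_g]
    rcases max_choice (p.g i) (q.g i) with h | h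
    · exact ((h1 i hi).2 (by rw [← h]; exact htop)).trans (le_max_left _ _)
    · exact ((h4 i hi).2 (by rw [← h]; exact htop)).trans (le_max_right _ _)
  · rw [inf_k, inf_k] at hne
    rw [inf_k] at hi
    rw [inf_g]
    rcases le_total q.k p.k with h | h
    · have h7 : p'.k ≠ p.k := by
        intro h8
        apply hne
        rw [max_eq_left h, h8, max_eq_left (h5.trans h)]
      rw [h3 h7 i (by rwa [max_eq_left h] at hi)]
      exact max_eq_left le_top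
    · have h7 : q'.k ≠ q.k := by
        intro h8
        apply hne
        rw [max_eq_right h, h8, max_eq_right (h2.trans h)]
      rw [h6 h7 i (by rwa [max_eq_right h] at hi)]
      exact max_eq_right le_top

theorem inf_U {f : ℕ → ℕ} {p q : P} (hp : p ∈ U f) (hq : q ∈ U f) : p ⊓ q ∈ U f := by
  obtain ⟨r, h1, h2, h3⟩ := hp
  obtain ⟨s, h4, h5, h6⟩ := hq
  rcases le_total r s with h | h
  · refine ⟨s, ?_, h5.trans (le_max_right _ _), h6.trans_le (le_max_right _ _)⟩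
    rw [inf_g]
    refine max_le (((p.anti h).trans h1).trans ?_) h4
    exact_mod_cast h
  · refine ⟨r, ?_, h2.trans (le_max_left _ _), h3.trans_le (le_max_left _ _)⟩
    rw [inf_g]
    refine max_le h1 (((q.anti h).trans h4).trans ?_)
    exact_mod_cast h

theorem exists_r (p : P) : ∃ r : ℕ, p.g r ≤ (r : ℕ∞) := by
  obtain ⟨m, hm⟩ := ENat.ne_top_iff_exists.1 p.fin
  refine ⟨max p.k m, (p.anti (le_max_left _ _)).trans ?_⟩
  rw [← hm]
  exact_mod_cast le_max_right p.k m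

theorem inf_UV (f : ℕ → ℕ) (p : P) : ∃ f' N, ∀ q ∈ U f', ∀ p' ∈ V N p, q ⊓ p' ∈ U f := by
  obtain ⟨r₀, hr₀⟩ := exists_r p
  refine ⟨fun r => max (f (max r r₀)) (max r r₀ + 1), r₀, ?_⟩
  rintro q ⟨r, h1, h2, h3⟩ p' hp'
  have hfin : p.g r₀ ≠ ⊤ := (hr₀.trans_lt (ENat.natCast_lt_top r₀)).ne
  refine ⟨max r r₀, ?_, ?_, ?_⟩
  · rw [inf_g]
    refine max_le (((q.anti (le_max_left _ _)).trans h1).trans ?_)
      ((p'.anti (le_max_right _ _)).trans ?_)
    · exact_mod_cast le_max_left r r₀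
    · rw [(hp'.1 r₀ le_rfl).1 hfin]
      refine hr₀.trans ?_
      exact_mod_cast le_max_right r r₀
  · rw [inf_k]
    exact ((le_max_left _ _).trans h2).trans (le_max_left _ _)
  · rw [inf_k]
    have h4 : max r r₀ + 1 ≤ q.k := (le_max_right _ _).trans h2
    exact (Nat.lt_of_succ_le h4).trans_le (le_max_left _ _)

theorem bot_inf_X (x : X) : (⊥ : X) ⊓ x = ⊥ := bot_inf_eq x

theorem continuousAt_bot_nz (p : P) :
    Tendsto (fun x : X × X => x.1 ⊓ x.2) (𝓝 ((⊥ : X), nz p)) (𝓝 (⊥ : X)) := by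
  rw [tendsto_nhds]
  intro W hW hb
  obtain ⟨f, hf⟩ := hW.2 hb
  obtain ⟨f', N, h⟩ := inf_UV f p
  rw [nhds_prod_eq]
  filter_upwards [(nhds_bot f').prod_mk (nhds_nz p N)] with x hx
  obtain ⟨hx1, q, hq, hx2⟩ := hx
  rcases hx1 with hx1 | ⟨q', hq', hx1⟩
  · simp only [mem_preimage, hx1, bot_inf_X]
    exact hb
  · simp only [mem_preimage, hx1, hx2, nz_inf]
    exact hf _ (h q' hq' q hq)

instance : ContinuousInf X where
  continuous_inf := by
    rw [continuous_iff_continuousAt]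
    rintro ⟨x, y⟩
    rcases cases_X x with rfl | ⟨p, rfl⟩ <;> rcases cases_X y with rfl | ⟨q, rfl⟩
    · show Tendsto (fun x : X × X => x.1 ⊓ x.2) (𝓝 ((⊥ : X), (⊥ : X))) (𝓝 ((⊥ : X) ⊓ ⊥))
      rw [bot_inf_X, tendsto_nhds]
      intro W hW hb
      obtain ⟨f, hf⟩ := hW.2 hb
      rw [nhds_prod_eq]
      filter_upwards [(nhds_bot f).prod_mk (nhds_bot f)] with x hx
      obtain ⟨hx1, hx2⟩ := hx
      rcases hx1 with hx1 | ⟨q, hq, hx1⟩
      · simp only [mem_preimage, hx1, bot_inf_X]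
        exact hb
      · rcases hx2 with hx2 | ⟨q', hq', hx2⟩
        · simp only [mem_preimage, hx2, inf_comm x.1, bot_inf_X]
          exact hb
        · simp only [mem_preimage, hx1, hx2, nz_inf]
          exact hf _ (inf_U hq hq')
    · show Tendsto (fun x : X × X => x.1 ⊓ x.2) (𝓝 ((⊥ : X), nz q)) (𝓝 ((⊥ : X) ⊓ nz q))
      rw [bot_inf_X]
      exact continuousAt_bot_nz q
    · show Tendsto (fun x : X × X => x.1 ⊓ x.2) (𝓝 (nz p, (⊥ : X))) (𝓝 (nz p ⊓ (⊥ : X)))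
      rw [inf_comm, bot_inf_X]
      have h := (continuousAt_bot_nz p).comp
        (continuous_swap.tendsto (nz p, (⊥ : X)))
      refine h.congr fun x => ?_
      exact inf_comm _ _
    · show Tendsto (fun x : X × X => x.1 ⊓ x.2) (𝓝 (nz p, nz q)) (𝓝 (nz p ⊓ nz q))
      rw [nz_inf, tendsto_nhds]
      intro W hW hpq
      obtain ⟨N, hN⟩ := hW.1 _ hpq
      rw [nhds_prod_eq]
      filter_upwards [(nhds_nz p N).prod_mk (nhds_nz q N)] with x hx
      obtain ⟨⟨p', hp', hx1⟩, q', hq', hx2⟩ := hx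
      simp only [mem_preimage, hx1, hx2, nz_inf]
      exact hN _ (inf_V hp' hq')

/-! ### Suprema of chains -/

theorem chain_directed {C : Set X} (hC : IsChain (· ≤ ·) C) {p q : P} (hp : nz p ∈ C)
    (hq : nz q ∈ C) : p ≤ q ∨ q ≤ p := by
  rcases hC.total hp hq with h | h
  · exact Or.inl (nz_le.1 h)
  · exact Or.inr (nz_le.1 h)

/-- A chain has a largest element. -/
theorem chain_max {C : Set X} (hC : IsChain (· ≤ ·) C) {p : P} (hp : nz p ∈ C) :
    ∃ q, nz q ∈ C ∧ ∀ r, nz r ∈ C → r ≤ q := by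
  classical
  obtain ⟨c, ⟨p₀, hp₀, i₀, hc⟩, hmin⟩ := (wellFounded_lt (α := ℕ∞)).has_min
    {c | ∃ q, nz q ∈ C ∧ ∃ i, q.g i = c} ⟨p.g 0, p, hp, 0, rfl⟩
  have hmin' : ∀ q, nz q ∈ C → ∀ i, c ≤ q.g i := fun q hq i =>
    not_lt.1 (hmin _ ⟨q, hq, i, rfl⟩)
  obtain ⟨kk, ⟨p₁, hp₁, hk⟩, hkmin⟩ := (wellFounded_lt (α := ℕ)).has_min
    {c | ∃ q, nz q ∈ C ∧ q.k = c} ⟨p.k, p, hp, rfl⟩
  have hkmin' : ∀ q, nz q ∈ C → kk ≤ q.k := fun q hq => not_lt.1 (hkmin _ ⟨q, hq, rfl⟩)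
  have key : ∀ n, ∃ q, nz q ∈ C ∧ (∀ i < n, ∀ r, nz r ∈ C → q.g i ≤ r.g i) ∧
      (∀ i, i₀ ≤ i → ∀ r, nz r ∈ C → q.g i ≤ r.g i) ∧ ∀ r, nz r ∈ C → q.k ≤ r.k := by
    intro n
    induction n with
    | zero =>
      have h1 : ∀ i, i₀ ≤ i → ∀ r, nz r ∈ C → p₀.g i ≤ r.g i := fun i hi r hr =>
        ((p₀.anti hi).trans hc.le).trans (hmin' r hr i)
      have h2 : ∀ r, nz r ∈ C → p₁.k ≤ r.k := fun r hr => hk.le.trans (hkmin' r hr)
      rcases chain_directed hC hp₀ hp₁ with h | h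
      · exact ⟨p₁, hp₁, fun i hi => absurd hi (Nat.not_lt_zero i),
          fun i hi r hr => (h.2 i).trans (h1 i hi r hr), h2⟩
      · exact ⟨p₀, hp₀, fun i hi => absurd hi (Nat.not_lt_zero i), h1,
          fun r hr => h.1.trans (h2 r hr)⟩
    | succ n ih =>
      obtain ⟨q, hq, h1, h2, h3⟩ := ih
      obtain ⟨d, ⟨q', hq', hd⟩, hdmin⟩ := (wellFounded_lt (α := ℕ∞)).has_min
        {c | ∃ q, nz q ∈ C ∧ q.g n = c} ⟨p.g n, p, hp, rfl⟩
      have hdmin' : ∀ r, nz r ∈ C → q'.g n ≤ r.g n := fun r hr =>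
        hd.le.trans (not_lt.1 (hdmin _ ⟨r, hr, rfl⟩))
      rcases chain_directed hC hq hq' with h | h
      · refine ⟨q', hq', fun i hi r hr => ?_, fun i hi r hr => (h.2 i).trans (h2 i hi r hr),
          fun r hr => h.1.trans (h3 r hr)⟩
        rcases Nat.lt_succ_iff_lt_or_eq.1 hi with h4 | rfl
        · exact (h.2 i).trans (h1 i h4 r hr)
        · exact hdmin' r hr
      · refine ⟨q, hq, fun i hi r hr => ?_, h2, h3⟩
        rcases Nat.lt_succ_iff_lt_or_eq.1 hi with h4 | rfl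
        · exact h1 i h4 r hr
        · exact (h.2 i).trans (hdmin' r hr)
  obtain ⟨q, hq, h1, h2, h3⟩ := key i₀
  refine ⟨q, hq, fun r hr => ⟨h3 r hr, fun i => ?_⟩⟩
  rcases lt_or_ge i i₀ with h | h
  · exact h1 i h r hr
  · exact h2 i h r hr

theorem sup_chain {C : Set X} (hne : C.Nonempty) (hC : IsChain (· ≤ ·) C) :
    ∃ a, IsLUB C a ∧ a ∈ closure {x | ∃ c ∈ C, x ≤ c} := by
  by_cases h : ∃ p, nz p ∈ C
  · obtain ⟨p, hp⟩ := h
    obtain ⟨q, hq, hmax⟩ := chain_max hC hp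
    refine ⟨nz q, IsGreatest.isLUB ⟨hq, fun x hx => ?_⟩, subset_closure ⟨nz q, hq, le_rfl⟩⟩
    rcases cases_X x with rfl | ⟨r, rfl⟩
    · exact bot_le
    · exact nz_le.2 (hmax r hx)
  · obtain ⟨x, hx⟩ := hne
    have hall : ∀ y ∈ C, y = ⊥ := by
      intro y hy
      rcases cases_X y with rfl | ⟨r, rfl⟩
      · rfl
      · exact absurd ⟨r, hy⟩ h
    refine ⟨x, IsGreatest.isLUB ⟨hx, fun y hy => ?_⟩, subset_closure ⟨x, hx, le_rfl⟩⟩
    rw [hall y hy]
    exact bot_le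

/-! ### Infima of chains -/

/-- The element `(n, 0)`. -/
def zeroP (n : ℕ) : P where
  k := n
  g := fun _ => 0
  anti := fun _ _ _ => le_rfl
  fin := ENat.zero_ne_top

theorem bot_mem_of_zeroP {F : Set X} (hF : IsClosed F)
    (h : ∀ n, ∃ m, n ≤ m ∧ nz (zeroP m) ∈ F) : ⊥ ∈ F := by
  by_contra hb
  obtain ⟨f, hf⟩ := hF.isOpen_compl.2 hb
  obtain ⟨m, hm, hmF⟩ := h (max (f 0) 1)
  refine hf (zeroP m) ⟨0, le_rfl, (le_max_left _ _).trans hm, ?_⟩ hmF
  exact Nat.lt_of_lt_of_le Nat.zero_lt_one ((le_max_right _ _).trans hm)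

/-- The function which is `m` at the first `n` places and then zero. -/
noncomputable def stepP (k m n : ℕ) : P where
  k := k
  g := fun i => if i < n then (m : ℕ∞) else 0
  anti := by
    intro i j hij
    dsimp only
    split_ifs with h1 h2
    · exact le_rfl
    · omega
    · exact bot_le
    · exact le_rfl
  fin := by
    split_ifs
    · exact ENat.natCast_ne_top m
    · exact ENat.zero_ne_top

/-- The function which is infinite at the first `n` places and then zero. -/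
noncomputable def topP (n : ℕ) : P where
  k := n
  g := fun i => if i < n then ⊤ else 0
  anti := by
    intro i j hij
    dsimp only
    split_ifs with h1 h2
    · exact le_rfl
    · omega
    · exact bot_le
    · exact le_rfl
  fin := by
    rw [if_neg (lt_irrefl n)]
    exact ENat.zero_ne_top

theorem topP_mem {F : Set X} (hF : IsClosed F) {n : ℕ}
    (h : ∀ m, ∃ k ≤ n, nz (stepP k m n) ∈ F) : nz (topP n) ∈ F := by
  by_contra hb
  obtain ⟨N, hN⟩ := hF.isOpen_compl.1 _ hb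
  obtain ⟨k, hk, hmem⟩ := h N
  refine hN (stepP k N n) ⟨fun i _ => ⟨fun hne => ?_, fun htop => ?_⟩, hk, fun _ i hi => ?_⟩ hmem
  · have h1 : ¬ i < n := fun h1 => hne (if_pos h1)
    show (if i < n then (N : ℕ∞) else 0) = if i < n then ⊤ else 0
    rw [if_neg h1, if_neg h1]
  · have h1 : i < n := by
      by_contra h1
      have h2 : (topP n).g i = 0 := if_neg h1
      rw [h2] at htop
      exact ENat.zero_ne_top htop
    show (N : ℕ∞) ≤ if i < n then (N : ℕ∞) else 0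
    rw [if_pos h1]
  · exact if_pos hi

theorem inf_chain {F : Set X} (hF : IsClosed F) (hU : IsUpperSet F) {C : Set X}
    (hne : C.Nonempty) (hCF : C ⊆ F) (hC : IsChain (· ≤ ·) C) : ∃ a, IsGLB C a ∧ a ∈ F := by
  classical
  by_cases hb : (⊥ : X) ∈ C
  · exact ⟨⊥, IsLeast.isGLB ⟨hb, fun _ _ => bot_le⟩, hCF hb⟩
  have hCP : ∀ x ∈ C, ∃ p, nz p ∈ C ∧ x = nz p := by
    intro x hx
    rcases cases_X x with rfl | ⟨p, rfl⟩
    · exact absurd hx hb
    · exact ⟨p, hx, rfl⟩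
  obtain ⟨p₀, hp₀, -⟩ := hCP _ hne.choose_spec
  by_cases hk : ∃ K, ∀ p, nz p ∈ C → p.k ≤ K
  swap
  · -- the numbers are unbounded
    push Not at hk
    refine ⟨⊥, ⟨fun _ _ => bot_le, fun x hx => ?_⟩, bot_mem_of_zeroP hF fun n => ?_⟩
    · rcases cases_X x with rfl | ⟨q, rfl⟩
      · exact le_rfl
      · obtain ⟨p, hp, hp'⟩ := hk q.k
        have h1 := (nz_le.1 (hx hp)).1
        omega
    · obtain ⟨p, hp, hp'⟩ := hk n
      have h1 : nz p ≤ nz (zeroP p.k) := nz_le.2 ⟨le_rfl, fun _ => bot_le⟩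
      exact ⟨p.k, hp'.le, hU h1 (hCF hp)⟩
  -- the largest number
  obtain ⟨p₁, hp₁, hp₁max⟩ : ∃ p₁, nz p₁ ∈ C ∧ ∀ p, nz p ∈ C → p.k ≤ p₁.k := by
    obtain ⟨K, hK⟩ := hk
    have hbdd : BddAbove {k | ∃ p, nz p ∈ C ∧ p.k = k} := ⟨K, by
      rintro _ ⟨p, hp, rfl⟩
      exact hK p hp⟩
    obtain ⟨p₁, hp₁, h1⟩ := Nat.sSup_mem (s := {k | ∃ p, nz p ∈ C ∧ p.k = k})
      ⟨_, p₀, hp₀, rfl⟩ hbdd
    exact ⟨p₁, hp₁, fun p hp => by rw [h1]; exact le_csSup hbdd ⟨p, hp, rfl⟩⟩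
  by_cases hfin : ∃ i m : ℕ, ∀ p, nz p ∈ C → p.g i ≤ m
  swap
  · -- the functions are unbounded at each place
    push Not at hfin
    refine ⟨⊥, ⟨fun _ _ => bot_le, fun x hx => ?_⟩, bot_mem_of_zeroP hF fun n => ?_⟩
    · rcases cases_X x with rfl | ⟨q, rfl⟩
      · exact le_rfl
      · obtain ⟨m, hm⟩ := ENat.ne_top_iff_exists.1 q.fin
        obtain ⟨p, hp, hp'⟩ := hfin q.k m
        have h1 := (nz_le.1 (hx hp)).2 q.k
        rw [← hm] at h1
        exact absurd h1 (not_le.2 hp')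
    · refine ⟨max n p₁.k, le_max_left _ _, ?_⟩
      have h1 : nz (topP (max n p₁.k)) ∈ F := by
        refine topP_mem hF fun m => ?_
        obtain ⟨p, hp, hp'⟩ := hfin (max n p₁.k) m
        have h1 : nz p ≤ nz (stepP p.k m (max n p₁.k)) := by
          refine nz_le.2 ⟨le_rfl, fun i => ?_⟩
          show (if i < max n p₁.k then (m : ℕ∞) else 0) ≤ p.g i
          split_ifs with h2
          · exact hp'.le.trans (p.anti h2.le)
          · exact bot_le
        exact ⟨p.k, (hp₁max p hp).trans (le_max_right _ _), hU h1 (hCF hp)⟩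
      have h2 : nz (topP (max n p₁.k)) ≤ nz (zeroP (max n p₁.k)) :=
        nz_le.2 ⟨le_rfl, fun _ => bot_le⟩
      exact hU h2 h1
  -- the infimum is not zero
  let G : ℕ → ℕ∞ := fun i => ⨆ p : {p : P // nz p ∈ C}, p.1.g i
  have hGle : ∀ p, nz p ∈ C → ∀ i, p.g i ≤ G i := fun p hp i =>
    le_iSup (fun p : {p : P // nz p ∈ C} => p.1.g i) ⟨p, hp⟩
  have hGanti : Antitone G := fun i j hij => iSup_mono fun p => p.1.anti hij
  have hGfin : ∃ i, G i ≠ ⊤ := by
    obtain ⟨i, m, him⟩ := hfin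
    have h1 : G i ≤ m := iSup_le fun p : {p : P // nz p ∈ C} => him p.1 p.2
    exact ⟨i, (h1.trans_lt (ENat.natCast_lt_top m)).ne⟩
  have hκ := Nat.find_spec hGfin
  have hκ' : ∀ i < Nat.find hGfin, G i = ⊤ := fun i hi => not_not.1 (Nat.find_min hGfin hi)
  let a : P :=
    { k := max p₁.k (Nat.find hGfin)
      g := G
      anti := hGanti
      fin := ((hGanti (le_max_right _ _)).trans_lt (lt_top_iff_ne_top.2 hκ)).ne }
  refine ⟨nz a, ⟨fun x hx => ?_, fun x hx => ?_⟩, ?_⟩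
  · obtain ⟨p, hp, rfl⟩ := hCP x hx
    exact nz_le.2 ⟨(hp₁max p hp).trans (le_max_left _ _), fun i => hGle p hp i⟩
  · rcases cases_X x with rfl | ⟨q, rfl⟩
    · exact bot_le
    · have h1 : G ≤ q.g := fun i => iSup_le fun p => (nz_le.1 (hx p.2)).2 i
      refine nz_le.2 ⟨max_le ?_ ?_, h1⟩
      · exact (nz_le.1 (hx hp₁)).1
      · refine Nat.find_min' hGfin ?_
        exact ((h1 q.k).trans_lt (lt_top_iff_ne_top.2 q.fin)).ne
  · by_contra hcon
    obtain ⟨N, hN⟩ := hF.isOpen_compl.1 _ hcon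
    have key : ∀ n, ∃ q, nz q ∈ C ∧ q.k = p₁.k ∧ ∀ i < n, (G i ≠ ⊤ → q.g i = G i) ∧
        (G i = ⊤ → (N : ℕ∞) ≤ q.g i) := by
      intro n
      induction n with
      | zero => exact ⟨p₁, hp₁, rfl, fun i hi => absurd hi (Nat.not_lt_zero i)⟩
      | succ n ih =>
        obtain ⟨q, hq, hqk, h1⟩ := ih
        obtain ⟨q', hq', h2⟩ : ∃ q', nz q' ∈ C ∧ (G n ≠ ⊤ → q'.g n = G n) ∧
            (G n = ⊤ → (N : ℕ∞) ≤ q'.g n) := by
          by_cases hGn : G n = ⊤
          · have h3 : (N : ℕ∞) < G n := by rw [hGn]; exact ENat.natCast_lt_top N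
            obtain ⟨⟨q', hq'⟩, h4⟩ := lt_iSup_iff.1 h3
            exact ⟨q', hq', fun h => absurd hGn h, fun _ => h4.le⟩
          · have h3 : ∃ q' : {p : P // nz p ∈ C}, q'.1.g n = G n := by
              have : Nonempty {p : P // nz p ∈ C} := ⟨⟨p₀, hp₀⟩⟩
              have h4 := ENat.exists_eq_iSup_of_lt_top (f := fun p : {p : P // nz p ∈ C} =>
                p.1.g n) (lt_top_iff_ne_top.2 hGn)
              exact h4
            obtain ⟨⟨q', hq'⟩, h4⟩ := h3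
            exact ⟨q', hq', fun _ => h4, fun h => absurd h hGn⟩
        -- conditions are inherited downwards
        have hinh : ∀ r, nz r ∈ C → r ≤ q → r ≤ q' → (r.k = p₁.k ∧ ∀ i < n + 1,
            (G i ≠ ⊤ → r.g i = G i) ∧ (G i = ⊤ → (N : ℕ∞) ≤ r.g i)) := by
          intro r hr h3 h4
          refine ⟨le_antisymm (hp₁max r hr) (hqk ▸ h3.1), fun i hi => ?_⟩
          rcases Nat.lt_succ_iff_lt_or_eq.1 hi with h5 | rfl
          · refine ⟨fun h6 => le_antisymm (hGle r hr i) ?_, fun h6 => ?_⟩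
            · rw [← (h1 i h5).1 h6]
              exact h3.2 i
            · exact ((h1 i h5).2 h6).trans (h3.2 i)
          · refine ⟨fun h6 => le_antisymm (hGle r hr i) ?_, fun h6 => ?_⟩
            · rw [← h2.1 h6]
              exact h4.2 i
            · exact (h2.2 h6).trans (h4.2 i)
        rcases chain_directed hC hq hq' with h3 | h3
        · exact ⟨q, hq, hinh q hq le_rfl h3⟩
        · exact ⟨q', hq', hinh q' hq' h3 le_rfl⟩
    obtain ⟨q, hq, hqk, h1⟩ := key (N + 1)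
    refine hN q ⟨fun i hi => h1 i (Nat.lt_succ_of_le hi), ?_, fun h2 i hi => ?_⟩ (hCF hq)
    · rw [hqk]
      exact le_max_left _ _
    · refine hκ' i ?_
      have h3 : a.k = max p₁.k (Nat.find hGfin) := rfl
      rw [h3] at h2 hi
      rcases le_total (Nat.find hGfin) p₁.k with h4 | h4
      · rw [max_eq_left h4] at h2
        exact absurd hqk h2
      · rwa [max_eq_right h4] at hi

theorem cComplete : CComplete X := fun _ hF hU _ hne hCF hC =>
  ⟨inf_chain hF hU hne hCF hC, sup_chain hne hC⟩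

/-! ### The space is not `s`-complete -/

/-- The elements `(0, j)`. -/
noncomputable def cst (j : ℕ) : P where
  k := 0
  g := fun _ => j
  anti := fun _ _ _ => le_rfl
  fin := ENat.natCast_ne_top j

theorem not_sComplete : ¬ SComplete X := by
  intro h
  obtain ⟨a, ha, hcl⟩ := h.1 (range fun j => nz (cst j)) ⟨_, 0, rfl⟩ (by
    rintro _ ⟨i, rfl⟩ _ ⟨j, rfl⟩
    refine ⟨max i j, ?_⟩
    show nz (cst (max i j)) = nz (cst i ⊓ cst j)
    rw [nz_inj]
    refine P.ext rfl (funext fun n => ?_)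
    show ((max i j : ℕ) : ℕ∞) = max (i : ℕ∞) (j : ℕ∞)
    exact Nat.mono_cast.map_max (α := ℕ) (β := ℕ∞))
  have hab : a = ⊥ := by
    rcases cases_X a with rfl | ⟨q, rfl⟩
    · rfl
    · exfalso
      obtain ⟨m, hm⟩ := ENat.ne_top_iff_exists.1 q.fin
      have h1 := (nz_le.1 (ha.1 ⟨m + 1, rfl⟩)).2 q.k
      rw [← hm] at h1
      have h2 : m + 1 ≤ m := by
        have h3 : ((m + 1 : ℕ) : ℕ∞) ≤ (m : ℕ∞) := h1
        exact_mod_cast h3
      omega
  subst hab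
  rw [mem_closure_iff] at hcl
  obtain ⟨x, hx, s, ⟨j, rfl⟩, hsx⟩ := hcl _ (isOpen_U 0) (Or.inl rfl)
  rcases hx with rfl | ⟨q, ⟨r, _, _, hr⟩, rfl⟩
  · exact nz_ne_bot _ (le_bot_iff.1 hsx)
  · have h1 := (nz_le.1 hsx).1
    have h2 : (cst j).k = 0 := rfl
    omega

/-- There is a Hausdorff topological semilattice which is `c`-complete and not `s`-complete. -/
theorem result : ∃ (X : Type) (_ : SemilatticeInf X) (_ : TopologicalSpace X),
    ContinuousInf X ∧ T2Space X ∧ CComplete X ∧ ¬ SComplete X :=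
  ⟨X, inferInstance, inferInstance, inferInstance, inferInstance, cComplete, not_sComplete⟩

end Pool.Agent.Results.MP_5a7388_gt.ChainCompleteNotComplete
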